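import Pool.Agent.Helper72.BH.FillT

/-!
# Stabilisation (item (S2) of the game)

`G` is a group in which every subgroup with at most `R` generators is free of rank at most that number,
`H ≤ H'`. Let `M` be free with the basis `a, b`, filled by `H'`, where `P = ⟨a⟩` is filled by `H`.
If for some `C ≥ P` of rank at most `T (rank M)` filled by `H` the group `⟨C, b⟩` is not the free product of `C`
and `⟨b⟩` then we replace `M` by `⟨C, b⟩`; the number of the letters `b` drops.
-/

set_option autoImplicit false

namespace Pool.Agent.Helper24.HL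

open FreeGroup (of)
open Pool.Agent.Helper22.OR (Gen card_le_of_gen)
open Pool.Agent.Helper72.BH

variable {G : Type} [Group G]

/-- Every subgroup with at most `R` generators is free, of rank at most the number of the generators. -/
def FreeUpTo (G : Type) [Group G] (R : ℕ) : Prop :=
  ∀ (k : ℕ) (A : Subgroup G), k ≤ R → Gen k A → ∃ m, m ≤ k ∧ Nonempty (FreeGroup (Fin m) ≃* A)

/-- The bound of the rank after at most `q` repetitions. -/
def bnd (T : ℕ → ℕ) : ℕ → ℕ → ℕ
  | 0, m => m
  | q + 1, m => bnd T q (T m + m)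

theorem le_bnd (T : ℕ → ℕ) (q : ℕ) : ∀ m, m ≤ bnd T q m := by
  induction q with
  | zero => exact fun m => le_rfl
  | succ q ih => exact fun m => (Nat.le_add_left m (T m)).trans (ih _)

theorem bnd_mono {T : ℕ → ℕ} (hT : Monotone T) (q : ℕ) : Monotone (bnd T q) := by
  induction q with
  | zero => exact fun a b h => h
  | succ q ih => exact fun a b h => ih (add_le_add (hT h) h)

theorem bnd_mono_left {T : ℕ → ℕ} (hT : Monotone T) (m : ℕ) : Monotone (fun q => bnd T q m) := by
  refine monotone_nat_of_le_succ fun q => ?_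
  exact bnd_mono hT q (Nat.le_add_left m (T m))

/-- The range of the homomorphism given by a tuple. -/
theorem range_lift {ι : Type} (v : ι → G) :
    (FreeGroup.lift v).range = Subgroup.closure (Set.range v) := by
  rw [MonoidHom.range_eq_map, ← FreeGroup.closure_range_of, MonoidHom.map_closure,
    ← Set.range_comp]
  congr 1
  ext x
  simp

theorem range_append' {c q : ℕ} (χ : Fin c → G) (b : Fin q → G) :
    Subgroup.closure (Set.range (Fin.append χ b)) =
      Subgroup.closure (Set.range χ) ⊔ Subgroup.closure (Set.range b) := by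
  rw [← Subgroup.closure_union]
  congr 1
  ext x
  constructor
  · rintro ⟨i, rfl⟩
    refine Fin.addCases (fun i => ?_) (fun i => ?_) i
    · rw [Fin.append_left]
      exact Or.inl ⟨i, rfl⟩
    · rw [Fin.append_right]
      exact Or.inr ⟨i, rfl⟩
  · rintro (⟨i, rfl⟩ | ⟨i, rfl⟩)
    · exact ⟨Fin.castAdd q i, by rw [Fin.append_left]⟩
    · exact ⟨Fin.natAdd c i, by rw [Fin.append_right]⟩

/-- An injective tuple gives an isomorphism. -/
noncomputable def basisEquiv {m : ℕ} {A : Subgroup G} (v : Fin m → G)
    (hv : Function.Injective (FreeGroup.lift v)) (hA : Subgroup.closure (Set.range v) = A) :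
    FreeGroup (Fin m) ≃* A :=
  (MonoidHom.ofInjective hv).trans (MulEquiv.subgroupCongr ((range_lift v).trans hA))

theorem rank_le {c k : ℕ} {C : Subgroup G} (χ : Fin c → G)
    (hχ : Function.Injective (FreeGroup.lift χ)) (hC : Subgroup.closure (Set.range χ) = C)
    (hk : Gen k C) : c ≤ k := by
  obtain ⟨g, hg⟩ := hk
  have hmem : ∀ i, g i ∈ C := fun i => by
    rw [← hg]
    exact Subgroup.subset_closure ⟨i, rfl⟩
  have htop : Subgroup.closure (Set.range fun i => (⟨g i, hmem i⟩ : C)) = ⊤ := by
    apply Subgroup.map_injective (Subgroup.subtype_injective C)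
    rw [MonoidHom.map_closure, ← MonoidHom.range_eq_map, Subgroup.range_subtype,
      ← Set.range_comp]
    exact hg
  have h := (card_le_of_gen (basisEquiv χ hχ hC) _ htop).2
  simpa using h

/-- A subgroup `K` of the words whose image contains `J` is everything. -/
theorem eq_top_of_le {ι : Type} {v : ι → G} (hv : Function.Injective (FreeGroup.lift v))
    {K : Subgroup (FreeGroup ι)}
    (h : Subgroup.closure (Set.range v) ≤ K.map (FreeGroup.lift v)) : K = ⊤ := by
  rw [eq_top_iff]
  intro w _
  have h1 : FreeGroup.lift v w ∈ K.map (FreeGroup.lift v) := by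
    apply h
    rw [← range_lift]
    exact ⟨w, rfl⟩
  obtain ⟨w', hw', h2⟩ := h1
  rw [← hv h2]
  exact hw'

theorem mem_left {c q : ℕ} (χ : Fin c → G) (b : Fin q → G) {x : G}
    (hx : x ∈ Subgroup.closure (Set.range χ)) :
    ∃ w : FreeGroup (Fin c), FreeGroup.lift χ w = x ∧
      FreeGroup.lift (Fin.append χ b) (FreeGroup.map (Fin.castAdd q) w) = x := by
  rw [← range_lift] at hx
  obtain ⟨w, hw⟩ := hx
  refine ⟨w, hw, ?_⟩
  rw [← hw]
  have h : (FreeGroup.lift (Fin.append χ b)).comp (FreeGroup.map (Fin.castAdd q)) =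
      FreeGroup.lift χ := by
    apply FreeGroup.ext_hom
    intro i
    simp
  exact DFunLike.congr_fun h w

/-- `C ≤ ⟨a⟩`, `J = C ⊔ ⟨b⟩ = ⟨a⟩ ⊔ ⟨b'⟩` with the basis `a, b'`: then `b'` is not longer than `b`. -/
theorem length_le {j' q' q : ℕ} {a' : Fin j' → G} {b' : Fin q' → G} {b : Fin q → G}
    {C J : Subgroup G} (hinj : Function.Injective (FreeGroup.lift (Fin.append a' b')))
    (hJ : Subgroup.closure (Set.range a') ⊔ Subgroup.closure (Set.range b') = J)
    (hJ' : C ⊔ Subgroup.closure (Set.range b) = J)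
    (hC : C ≤ Subgroup.closure (Set.range a')) : q' ≤ q := by
  have hr : Subgroup.closure (Set.range (Fin.append a' b')) = J := (range_append' a' b').trans hJ
  have hb : ∀ i, ∃ w, FreeGroup.lift (Fin.append a' b') w = b i := fun i => by
    have h1 : b i ∈ J := by
      rw [← hJ']
      exact Subgroup.mem_sup_right (Subgroup.subset_closure ⟨i, rfl⟩)
    rw [← hr, ← range_lift] at h1
    exact h1
  choose w hw using hb
  let ρ : FreeGroup (Fin (j' + q')) →* FreeGroup (Fin q') :=
    FreeGroup.lift (Fin.append (fun _ => 1) of)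
  have hK : (Subgroup.closure (Set.range fun i => ρ (w i))).comap ρ = ⊤ := by
    apply eq_top_of_le hinj
    rw [hr, ← hJ']
    apply sup_le
    · intro x hx
      obtain ⟨v, _, hv⟩ := mem_left a' b' (hC hx)
      refine ⟨_, ?_, hv⟩
      change ρ (FreeGroup.map (Fin.castAdd q') v) ∈ Subgroup.closure (Set.range fun i => ρ (w i))
      have h1 : ρ.comp (FreeGroup.map (Fin.castAdd q')) = 1 := by
        apply FreeGroup.ext_hom
        intro i
        simp [ρ]
      have h2 := DFunLike.congr_fun h1 v
      rw [MonoidHom.comp_apply] at h2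
      rw [h2]
      exact Subgroup.one_mem _
    · rw [Subgroup.closure_le]
      rintro _ ⟨i, rfl⟩
      exact ⟨w i, Subgroup.subset_closure ⟨i, rfl⟩, hw i⟩
  have htop : Subgroup.closure (Set.range fun i => ρ (w i)) = ⊤ := by
    rw [eq_top_iff, ← FreeGroup.closure_range_of, Subgroup.closure_le]
    rintro _ ⟨i, rfl⟩
    have h1 : (of (Fin.natAdd j' i) : FreeGroup (Fin (j' + q'))) ∈
        (Subgroup.closure (Set.range fun i => ρ (w i))).comap ρ := by
      rw [hK]
      trivial
    have h2 : ρ (of (Fin.natAdd j' i)) = of i := by simp [ρ]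
    rw [Subgroup.mem_comap, h2] at h1
    exact h1
  have h := (card_le_of_gen (MulEquiv.refl (FreeGroup (Fin q'))) _ htop).2
  simpa using h

/-- If `a, b` is a basis of `J = C ⊔ ⟨b⟩` with `C ≤ ⟨a⟩` then `C = ⟨a⟩`. -/
theorem left_le {j q : ℕ} {a : Fin j → G} {b : Fin q → G} {C : Subgroup G}
    (hinj : Function.Injective (FreeGroup.lift (Fin.append a b)))
    (hJ : C ⊔ Subgroup.closure (Set.range b) =
      Subgroup.closure (Set.range a) ⊔ Subgroup.closure (Set.range b))
    (hC : C ≤ Subgroup.closure (Set.range a)) : Subgroup.closure (Set.range a) ≤ C := by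
  let ρ : FreeGroup (Fin (j + q)) →* G := FreeGroup.lift (Fin.append a (fun _ => 1))
  have hK : C.comap ρ = ⊤ := by
    apply eq_top_of_le hinj
    rw [range_append', ← hJ]
    apply sup_le
    · intro x hx
      obtain ⟨v, hv1, hv⟩ := mem_left a b (hC hx)
      refine ⟨_, ?_, hv⟩
      change ρ (FreeGroup.map (Fin.castAdd q) v) ∈ C
      have h1 : ρ.comp (FreeGroup.map (Fin.castAdd q)) = FreeGroup.lift a := by
        apply FreeGroup.ext_hom
        intro i
        simp [ρ]
      have h2 := DFunLike.congr_fun h1 v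
      rw [MonoidHom.comp_apply] at h2
      rw [h2, hv1]
      exact hx
    · rw [Subgroup.closure_le]
      rintro _ ⟨i, rfl⟩
      refine ⟨of (Fin.natAdd j i), ?_, by simp⟩
      change ρ (of (Fin.natAdd j i)) ∈ C
      have h2 : ρ (of (Fin.natAdd j i)) = 1 := by simp [ρ]
      rw [h2]
      exact C.one_mem
  rw [Subgroup.closure_le]
  rintro _ ⟨i, rfl⟩
  have h1 : (of (Fin.castAdd q i) : FreeGroup (Fin (j + q))) ∈ C.comap ρ := by
    rw [hK]
    trivial
  have h2 : ρ (of (Fin.castAdd q i)) = a i := by simp [ρ]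
  rw [Subgroup.mem_comap, h2] at h1
  exact h1

/-- `M` is free with the basis `a, b`, filled by `H'`, and `⟨a⟩` is filled by `H`. -/
structure Split (H H' M : Subgroup G) {j q : ℕ} (a : Fin j → G) (b : Fin q → G) : Prop where
  gen : Subgroup.closure (Set.range a) ⊔ Subgroup.closure (Set.range b) = M
  inj : Function.Injective (FreeGroup.lift (Fin.append a b))
  left : Filled j H (Subgroup.closure (Set.range a))
  fill : Filled (j + q) H' M

/-- `b` is free over all `C` of rank at most `N` which are filled by `H` and contain `⟨a⟩`. -/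
def Stable (N : ℕ) (H : Subgroup G) {j q : ℕ} (a : Fin j → G) (b : Fin q → G) : Prop :=
  ∀ C, FilledLe N H C → Subgroup.closure (Set.range a) ≤ C → ∀ (c : ℕ) (χ : Fin c → G),
    Subgroup.closure (Set.range χ) = C → Function.Injective (FreeGroup.lift χ) →
    Function.Injective (FreeGroup.lift (Fin.append χ b))

theorem stab_step {R : ℕ} (hfree : FreeUpTo G R) {H H' M : Subgroup G} (hHH' : H ≤ H')
    {j q : ℕ} {a : Fin j → G} {b : Fin q → G} (hs : Split H H' M a b) {N : ℕ} (hN : N + q ≤ R)
    (hns : ¬ Stable N H a b) :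
    ∃ (j' q' : ℕ) (a' : Fin j' → G) (b' : Fin q' → G) (J : Subgroup G), M ≤ J ∧
      Split H H' J a' b' ∧ q' < q ∧ j' + q' ≤ N + q := by
  unfold Stable at hns
  push Not at hns
  obtain ⟨C, ⟨k, hk, hC⟩, hPC, c, χ, hχ, hχi, hni⟩ := hns
  have hck : c ≤ k := rank_le χ hχi hχ hC.gen
  set J : Subgroup G := C ⊔ Subgroup.closure (Set.range b) with hJdef
  have hgen : Gen (c + q) J := ⟨Fin.append χ b, by rw [range_append', hχ]⟩
  obtain ⟨m', hm', ⟨φ⟩⟩ := hfree _ J (by omega) hgen
  have hHJ : H ≤ J := hC.le.trans le_sup_left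
  obtain ⟨j', q', a', b', hjq, hJ1, hinj, hfill⟩ := exists_factor φ hHJ
  subst hjq
  have hMJ : M ≤ J := by
    rw [← hs.gen]
    exact sup_le (hPC.trans le_sup_left) le_sup_right
  -- `J` is filled by `H'`
  have hfJ : Filled (j' + q') H' J := by
    refine filled_join φ (ι := Bool) (fun i => cond i M C) (fun i => cond i H' H) ?_ ?_ ?_
    · intro i
      cases i
      · exact hHH'
      · exact le_rfl
    · intro i
      cases i
      · exact ⟨k, hC⟩
      · exact ⟨_, hs.fill⟩
    · rw [iSup_bool_eq]
      change H' ⊔ (M ⊔ C) = J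
      apply le_antisymm
      · exact sup_le (hs.fill.le.trans hMJ) (sup_le hMJ le_sup_left)
      · rw [hJdef]
        refine sup_le (le_sup_right.trans le_sup_right) ?_
        refine le_trans ?_ (le_sup_left.trans le_sup_right)
        rw [← hs.gen]
        exact le_sup_right
  -- `C ≤ ⟨a'⟩`
  have hCa : C ≤ Subgroup.closure (Set.range a') := by
    have hS : (fun i => FreeGroup.lift (Fin.append a' b') (of i)) ''
        (Set.range (Fin.castAdd q')) = Set.range a' := by
      ext x
      constructor
      · rintro ⟨_, ⟨i, rfl⟩, rfl⟩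
        exact ⟨i, by simp⟩
      · rintro ⟨i, rfl⟩
        exact ⟨_, ⟨i, rfl⟩, by simp⟩
    rw [← hS]
    refine filled_basis _ hinj hC ?_ _ ?_
    · rw [range_lift, range_append', hJ1]
      exact le_sup_left
    · rw [hS]
      exact hfill.le
  have hqq : q' ≤ q := length_le hinj hJ1 rfl hCa
  refine ⟨j', q', a', b', J, hMJ, ⟨hJ1, hinj, hfill, hfJ⟩, ?_, by omega⟩
  by_contra hlt
  have hq : q' = q := le_antisymm hqq (not_lt.1 hlt)
  subst hq
  apply hni
  have hab : C ⊔ Subgroup.closure (Set.range b) =
      Subgroup.closure (Set.range a') ⊔ Subgroup.closure (Set.range b) := by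
    apply le_antisymm
    · exact sup_le_sup_right hCa _
    · refine sup_le ?_ le_sup_right
      rw [← hJdef, ← hJ1]
      exact le_sup_left
  have hb1 : Function.Injective (FreeGroup.lift (Fin.append a' b)) :=
    basis_of_gen φ _ (by rw [range_append', ← hab])
  have hCa' : Subgroup.closure (Set.range a') = C := le_antisymm (left_le hb1 hab hCa) hCa
  have hcj : c = j' := by
    have hinja : Function.Injective (FreeGroup.lift a') := by
      intro x y hxy
      have h1 : (FreeGroup.lift (Fin.append a' b')).comp (FreeGroup.map (Fin.castAdd q')) =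
          FreeGroup.lift a' := by
        apply FreeGroup.ext_hom
        intro i
        simp
      have h2 : FreeGroup.lift (Fin.append a' b') (FreeGroup.map (Fin.castAdd q') x) =
          FreeGroup.lift (Fin.append a' b') (FreeGroup.map (Fin.castAdd q') y) := by
        have hx := DFunLike.congr_fun h1 x
        have hy := DFunLike.congr_fun h1 y
        rw [MonoidHom.comp_apply] at hx hy
        rw [hx, hy, hxy]
      exact FreeGroup.map_injective (Fin.castAdd_injective j' q') (hinj h2)
    apply le_antisymm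
    · exact rank_le χ hχi hχ ⟨a', hCa'⟩
    · exact rank_le a' hinja hCa' ⟨χ, hχ⟩
  subst hcj
  exact basis_of_gen φ _ (by rw [range_append', hχ])

/-- The rank of a free group is determined by `Filled`. -/
theorem filled_rank {m k : ℕ} {H A : Subgroup G} (φ : FreeGroup (Fin m) ≃* A)
    (h : Filled k H A) : k = m := by
  have hgen : Gen m A := by
    refine ⟨fun i => ((φ (of i) : A) : G), ?_⟩
    have h1 : (Set.range (fun i => ((φ (of i) : A) : G))) =
        A.subtype.comp φ.toMonoidHom '' Set.range (of (α := Fin m)) := by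
      rw [← Set.range_comp]
      rfl
    rw [h1, ← MonoidHom.map_closure, FreeGroup.closure_range_of, ← MonoidHom.range_eq_map]
    ext x
    constructor
    · rintro ⟨w, rfl⟩
      exact (φ w).2
    · intro hx
      exact ⟨φ.symm ⟨x, hx⟩, by simp⟩
  apply le_antisymm
  · by_contra hlt
    have hk : k - 1 + 1 = k := by omega
    refine h.2.2 (k - 1) A 1 hk (hgen.mono (by omega)) ?_ h.le
    rw [Subgroup.closure_singleton_one, sup_bot_eq]
  · obtain ⟨g, hg⟩ := h.gen
    have hmem : ∀ i, g i ∈ A := fun i => by
      rw [← hg]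
      exact Subgroup.subset_closure ⟨i, rfl⟩
    have htop : Subgroup.closure (Set.range fun i => (⟨g i, hmem i⟩ : A)) = ⊤ := by
      apply Subgroup.map_injective (Subgroup.subtype_injective A)
      rw [MonoidHom.map_closure, ← MonoidHom.range_eq_map, Subgroup.range_subtype,
        ← Set.range_comp]
      exact hg
    have h := (card_le_of_gen φ _ htop).2
    simpa using h

theorem stab_loop {R : ℕ} (hfree : FreeUpTo G R) {H H' : Subgroup G} (hHH' : H ≤ H')
    {T : ℕ → ℕ} (hT : Monotone T) :
    ∀ (q j : ℕ) (a : Fin j → G) (b : Fin q → G) (M : Subgroup G), Split H H' M a b →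
      bnd T q (j + q) + T (bnd T q (j + q)) ≤ R →
      ∃ (j' q' : ℕ) (a' : Fin j' → G) (b' : Fin q' → G) (M' : Subgroup G), M ≤ M' ∧
        Split H H' M' a' b' ∧ q' ≤ q ∧ j' + q' ≤ bnd T q (j + q) ∧
        Stable (T (j' + q')) H a' b' := by
  intro q
  induction q using Nat.strong_induction_on with
  | _ q ih =>
    intro j a b M hs hR
    by_cases hst : Stable (T (j + q)) H a b
    · exact ⟨j, q, a, b, M, le_rfl, hs, le_rfl, le_bnd T q _, hst⟩
    · have h1 : j + q ≤ bnd T q (j + q) := le_bnd T q _
      have h2 : T (j + q) ≤ T (bnd T q (j + q)) := hT h1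
      obtain ⟨j1, q1, a1, b1, J, hMJ, hs1, hq1, hle⟩ :=
        stab_step hfree hHH' hs (N := T (j + q)) (by omega) hst
      have h3 : bnd T q1 (j1 + q1) ≤ bnd T q (j + q) := by
        have h4 : bnd T (q1 + 1) (j + q) ≤ bnd T q (j + q) := bnd_mono_left hT _ hq1
        refine le_trans ?_ h4
        exact bnd_mono hT q1 (hle.trans (by omega))
      have h5 := hT h3
      obtain ⟨j', q', a', b', M', h6, h7, h8, h9, h10⟩ := ih q1 hq1 j1 a1 b1 J hs1 (by omega)
      exact ⟨j', q', a', b', M', hMJ.trans h6, h7, by omega, h9.trans h3, h10⟩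

end Pool.Agent.Helper24.HL
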